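import Mathlib
import Pool.Agent.Helper47.PR.Numeric

/-!
# The polynomial rate without the sign conjecture: the numerical part
-/

open Finset

namespace Pool.Agent.Helper34.P2

/-- a log-concave sequence of positive integers is monotone -/
lemma mono_succ {s : ℕ → ℕ} (hs1 : ∀ k, 1 ≤ s k)
    (hlc : ∀ i j, 1 ≤ j → j + 1 ≤ i → s (i + 1) * s j ≤ s i * s (j + 1)) {k : ℕ} (hk : 1 ≤ k) :
    s k ≤ s (k + 1) := by
  by_contra hcon
  push Not at hcon
  have h1 : ∀ i, k + 1 ≤ i → s (i + 1) < s i := by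
    intro i hi
    have h2 := hlc i k hk hi
    have h3 := hs1 i
    by_contra h4
    push Not at h4
    have h5 : s i * s k ≤ s (i + 1) * s k := Nat.mul_le_mul_right _ h4
    have h6 : s i * s (k + 1) < s i * s k := Nat.mul_lt_mul_of_pos_left hcon (by omega)
    omega
  have h2 : ∀ n, s (k + 1 + n) + n ≤ s (k + 1) := by
    intro n
    induction n with
    | zero => exact le_rfl
    | succ n ih =>
      have h3 := h1 (k + 1 + n) (by omega)
      have e1 : k + 1 + (n + 1) = k + 1 + n + 1 := by ring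
      rw [e1]
      omega
  have h3 := h2 (s (k + 1))
  have h4 := hs1 (k + 1 + s (k + 1))
  omega

section Step

variable {S δ : ℕ → ℝ} {β : ℕ → ℕ → ℝ}

lemma mono_of_succ (hS : ∀ k, 1 ≤ k → S k ≤ S (k + 1)) {i j : ℕ} (hi : 1 ≤ i) (hij : i ≤ j) :
    S i ≤ S j := by
  induction j, hij using Nat.le_induction with
  | base => exact le_rfl
  | succ j hj ih => exact ih.trans (hS j (by omega))

lemma chain (hB : ∀ i j, 1 ≤ j → j + 1 ≤ i → β (i + 1) j ≤ β i (j + 1)) (L : ℕ) :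
    ∀ j, j + 1 ≤ L → β (L + j) (L - j) ≤ β L L := by
  intro j
  induction j with
  | zero => intro _; rw [add_zero, Nat.sub_zero]
  | succ j ih =>
    intro hj
    have h1 := hB (L + j) (L - (j + 1)) (by omega) (by omega)
    have e1 : L - (j + 1) + 1 = L - j := by omega
    rw [e1] at h1
    exact h1.trans (ih (by omega))

/-- from `L` to `3 L / 2` -/
lemma step (hS1 : ∀ k, 1 ≤ S k) (hS : ∀ k, 1 ≤ k → S k ≤ S (k + 1))
    (hB : ∀ i j, 1 ≤ j → j + 1 ≤ i → β (i + 1) j ≤ β i (j + 1))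
    (h1 : ∀ i j, 1 ≤ i → 1 ≤ j → β i j ≤ 3 * (S j * δ i + S i * δ j))
    (h2 : ∀ i j, 1 ≤ i → 1 ≤ j → S j * δ i ≤ 3 * β i j + 2 * (S i * δ j))
    {L : ℕ} (hL : 1 ≤ L) {M : ℝ} (hM : 0 ≤ M) (hδ : ∀ k, 1 ≤ k → k ≤ L → δ k ≤ M * S k)
    {k : ℕ} (hk : 1 ≤ k) (hkL : k ≤ L + L / 2) :
    δ k ≤ 20 * (S L / S ((L + 1) / 2)) * M * S k := by
  have hh : 0 < S ((L + 1) / 2) := lt_of_lt_of_le one_pos (hS1 _)
  have hSk : 0 < S k := lt_of_lt_of_le one_pos (hS1 _)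
  have hSL : 0 < S L := lt_of_lt_of_le one_pos (hS1 _)
  have hq : 1 ≤ S L / S ((L + 1) / 2) := by
    rw [one_le_div hh]
    exact mono_of_succ hS (by omega) (by omega)
  obtain ⟨q, hqdef⟩ : ∃ q, S L / S ((L + 1) / 2) = q := ⟨_, rfl⟩
  rw [hqdef] at hq ⊢
  have hMk : 0 ≤ M * S k := by positivity
  rcases Nat.lt_or_ge L k with hlt | hge
  · obtain ⟨j, rfl⟩ : ∃ j, k = L + j := ⟨k - L, by omega⟩
    have hm1 : 1 ≤ L - j := by omega
    have hSm : 0 < S (L - j) := lt_of_lt_of_le one_pos (hS1 _)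
    have h3 := h2 (L + j) (L - j) hk hm1
    have h4 := chain hB L j (by omega)
    have h5 := h1 L L hL hL
    have h6 := hδ L hL le_rfl
    have h7 := hδ (L - j) hm1 (by omega)
    have h8 : S L ≤ S (L + j) := mono_of_succ hS hL (by omega)
    have h9 : S ((L + 1) / 2) ≤ S (L - j) := mono_of_succ hS (by omega) (by omega)
    -- `S L = q * S h ≤ q * S (L - j)`
    have h10 : S L ≤ q * S (L - j) := by
      have h11 : q * S ((L + 1) / 2) = S L := by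
        rw [← hqdef, div_mul_cancel₀ _ hh.ne']
      calc S L = q * S ((L + 1) / 2) := h11.symm
        _ ≤ q * S (L - j) := mul_le_mul_of_nonneg_left h9 (by linarith)
    have h11 : S L * δ L ≤ M * (S L * S L) := by
      calc S L * δ L ≤ S L * (M * S L) := mul_le_mul_of_nonneg_left h6 hSL.le
        _ = M * (S L * S L) := by ring
    have h12 : S (L + j) * δ (L - j) ≤ M * (S (L + j) * S (L - j)) := by
      calc S (L + j) * δ (L - j) ≤ S (L + j) * (M * S (L - j)) :=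
            mul_le_mul_of_nonneg_left h7 hSk.le
        _ = M * (S (L + j) * S (L - j)) := by ring
    have h13 : S L * S L ≤ q * (S (L + j) * S (L - j)) := by
      calc S L * S L ≤ S (L + j) * (q * S (L - j)) := mul_le_mul h8 h10 hSL.le hSk.le
        _ = q * (S (L + j) * S (L - j)) := by ring
    have h14 : S (L + j) * S (L - j) ≤ q * (S (L + j) * S (L - j)) :=
      le_mul_of_one_le_left (by positivity) hq
    have h15 := mul_le_mul_of_nonneg_left h13 hM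
    have h16 := mul_le_mul_of_nonneg_left h14 hM
    have h17 : S (L - j) * δ (L + j) ≤ S (L - j) * (20 * q * M * S (L + j)) := by
      have e1 : S (L - j) * (20 * q * M * S (L + j)) =
          20 * (M * (q * (S (L + j) * S (L - j)))) := by ring
      rw [e1]
      linarith
    exact le_of_mul_le_mul_left h17 hSm
  · have h3 := hδ k hk hge
    have h4 : M * S k ≤ 20 * q * (M * S k) := le_mul_of_one_le_left hMk (by linarith)
    calc δ k ≤ M * S k := h3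
      _ ≤ 20 * q * (M * S k) := h4
      _ = _ := by ring

/-- from `2 ^ (i + 1)` to `2 ^ (i + 2)` -/
lemma doubling (hS1 : ∀ k, 1 ≤ S k) (hS : ∀ k, 1 ≤ k → S k ≤ S (k + 1))
    (hB : ∀ i j, 1 ≤ j → j + 1 ≤ i → β (i + 1) j ≤ β i (j + 1))
    (h1 : ∀ i j, 1 ≤ i → 1 ≤ j → β i j ≤ 3 * (S j * δ i + S i * δ j))
    (h2 : ∀ i j, 1 ≤ i → 1 ≤ j → S j * δ i ≤ 3 * β i j + 2 * (S i * δ j))
    {M : ℝ} (hM : 0 ≤ M) (hδ : ∀ k, 1 ≤ k → k ≤ 2 → δ k ≤ M * S k) (i : ℕ) :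
    ∀ k, 1 ≤ k → k ≤ 2 ^ (i + 1) →
      δ k ≤ 400 ^ i * (S (2 ^ (i + 1)) * S (2 ^ i)) ^ 2 * M * S k := by
  have hS0 : ∀ k, 0 < S k := fun k => lt_of_lt_of_le one_pos (hS1 k)
  induction i with
  | zero =>
    intro k hk hk2
    have h3 := hδ k hk (by simpa using hk2)
    have h4 : 1 ≤ (S (2 ^ (0 + 1)) * S (2 ^ 0)) ^ 2 := by
      have h5 : 1 ≤ S (2 ^ (0 + 1)) * S (2 ^ 0) := one_le_mul_of_one_le_of_one_le (hS1 _) (hS1 _)
      exact one_le_pow₀ h5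
    rw [pow_zero, one_mul]
    have h5 : 0 ≤ M * S k := mul_nonneg hM (hS0 k).le
    calc δ k ≤ M * S k := h3
      _ ≤ (S (2 ^ (0 + 1)) * S (2 ^ 0)) ^ 2 * (M * S k) := le_mul_of_one_le_left h5 h4
      _ = _ := by ring
  | succ i ih =>
    intro k hk hk2
    have hp1 : 1 ≤ 2 ^ i := Nat.one_le_two_pow
    have e1 : 2 ^ (i + 1) = 2 * 2 ^ i := by rw [pow_succ, mul_comm]
    have e2 : 2 ^ (i + 1 + 1) = 4 * 2 ^ i := by rw [pow_succ, pow_succ]; ring
    obtain ⟨M0, hM0⟩ : ∃ M0, 400 ^ i * (S (2 ^ (i + 1)) * S (2 ^ i)) ^ 2 * M = M0 := ⟨_, rfl⟩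
    have hM00 : 0 ≤ M0 := by rw [← hM0]; positivity
    rw [hM0] at ih
    -- the first step
    have h3 : ∀ k, 1 ≤ k → k ≤ 3 * 2 ^ i →
        δ k ≤ 20 * (S (2 ^ (i + 1)) / S (2 ^ i)) * M0 * S k := by
      intro k hk hk3
      have h4 := step hS1 hS hB h1 h2 (L := 2 ^ (i + 1)) (by omega) hM00 ih hk (by omega)
      have e3 : (2 ^ (i + 1) + 1) / 2 = 2 ^ i := by omega
      rwa [e3] at h4
    obtain ⟨M1, hM1⟩ : ∃ M1, 20 * (S (2 ^ (i + 1)) / S (2 ^ i)) * M0 = M1 := ⟨_, rfl⟩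
    have hM10 : 0 ≤ M1 := by
      rw [← hM1]
      have := (hS0 (2 ^ (i + 1))).le
      have := (hS0 (2 ^ i)).le
      positivity
    rw [hM1] at h3
    -- the second step
    have h4 := step hS1 hS hB h1 h2 (L := 3 * 2 ^ i) (by omega) hM10 h3 hk (by omega)
    refine h4.trans (mul_le_mul_of_nonneg_right ?_ (hS0 k).le)
    have h5 : S (3 * 2 ^ i) ≤ S (2 ^ (i + 1 + 1)) := mono_of_succ hS (by omega) (by omega)
    have h6 : S (2 ^ i) ≤ S ((3 * 2 ^ i + 1) / 2) := mono_of_succ hS (by omega) (by omega)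
    have h7 : S (2 ^ (i + 1)) ≤ S (2 ^ (i + 1 + 1)) := mono_of_succ hS (by omega) (by omega)
    obtain ⟨p, hp⟩ : ∃ p, S (2 ^ (i + 1 + 1)) / S (2 ^ i) = p := ⟨_, rfl⟩
    have h8 : S (3 * 2 ^ i) / S ((3 * 2 ^ i + 1) / 2) ≤ p := by
      rw [← hp]
      exact div_le_div₀ (hS0 _).le h5 (hS0 _) h6
    have h9 : S (2 ^ (i + 1)) / S (2 ^ i) ≤ p := by
      rw [← hp]
      exact div_le_div_of_nonneg_right h7 (hS0 _).le
    have hp0 : 0 ≤ p := by
      rw [← hp]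
      have := (hS0 (2 ^ (i + 1 + 1))).le
      have := (hS0 (2 ^ i)).le
      positivity
    have h10 : M1 ≤ 20 * p * M0 := by
      rw [← hM1]
      exact mul_le_mul_of_nonneg_right (mul_le_mul_of_nonneg_left h9 (by norm_num)) hM00
    have h11 : p * S (2 ^ i) = S (2 ^ (i + 1 + 1)) := by
      rw [← hp, div_mul_cancel₀ _ (hS0 _).ne']
    calc 20 * (S (3 * 2 ^ i) / S ((3 * 2 ^ i + 1) / 2)) * M1
        ≤ 20 * p * M1 := mul_le_mul_of_nonneg_right
          (mul_le_mul_of_nonneg_left h8 (by norm_num)) hM10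
      _ ≤ 20 * p * (20 * p * M0) := mul_le_mul_of_nonneg_left h10 (by positivity)
      _ = 400 ^ (i + 1) * (S (2 ^ (i + 1)) * (p * S (2 ^ i))) ^ 2 * M := by
          rw [← hM0]; ring
      _ = 400 ^ (i + 1) * (S (2 ^ (i + 1 + 1)) * S (2 ^ (i + 1))) ^ 2 * M := by
          rw [h11]; ring

end Step

/-- piece N: the polynomial rate -/
theorem poly_numeric2 (b d r D0 : ℕ) (hb : 1 ≤ b) (hr : 1 ≤ r) : ∃ C α : ℝ, 0 < C ∧ 0 < α ∧
    ∀ (a c s : ℕ → ℕ) (A : ℕ → ℕ → ℕ) (B : ℕ → ℕ → ℕ → ℕ),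
    (∀ l, 1 ≤ c l) → (∀ l, c l ≤ b ^ (2 * (l + 1))) → (∀ l, c (l + 1) ^ 2 ≤ c l * c (l + 2)) →
    (∀ l, b ^ (2 * l) ≤ a l * (l + 2) ^ D0) →
    (∀ k, 1 ≤ s k) → (∀ k, s k ≤ (k + 1) ^ d) →
    (∀ i j, 1 ≤ j → j + 1 ≤ i → s (i + 1) * s j ≤ s i * s (j + 1)) →
    (∀ l i j, 1 ≤ j → j + 1 ≤ i → (s (i + 1) * s j * c l : ℤ) - B l (i + 1) j ≤
      s i * s (j + 1) * c l - B l i (j + 1)) →
    (∀ l i j, 1 ≤ i → 1 ≤ j → (s i * s j * c l : ℤ) - B l i j ≤
      3 * (s j * (s i * c l - A l i) + s i * (s j * c l - A l j))) →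
    (∀ l i j, 1 ≤ i → 1 ≤ j → (s j : ℤ) * (s i * c l - A l i) ≤
      3 * (s i * s j * c l - B l i j) + 2 * (s i * (s j * c l - A l j))) →
    (∀ l i, 1 ≤ i → A l i ≤ s i * c l) →
    (∀ l k, 1 ≤ k → s k * c l + c (l + r * k) ≤ A l k + b ^ (2 * r * k) * c l) →
    (∀ l k0, (∀ k < k0, s (k + 1) * c l < A l (k + 1) + c l) →
      c l + ∑ k ∈ range k0, A l (k + 1) ≤ a l + ∑ k ∈ range k0, (s (k + 1) - 1) * c l) →
    ∀ l : ℕ, (c l : ℝ) * ((l : ℝ) + 2) ^ α ≤ C * a l := by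
  obtain ⟨D, hDdef⟩ : ∃ D : ℕ, D0 + 1 + b ^ 2 = D := ⟨_, rfl⟩
  obtain ⟨n, hndef⟩ : ∃ n : ℕ, 5 * d + 11 = n := ⟨_, rfl⟩
  have hn : n ≠ 0 := by omega
  have hn0 : (0 : ℝ) < n := by exact_mod_cast Nat.pos_of_ne_zero hn
  obtain ⟨M0, hM0⟩ : ∃ M0 : ℝ, (4 : ℝ) ^ (5 * d) * (b : ℝ) ^ (4 * r) * (2 * r) * D * n = M0 :=
    ⟨_, rfl⟩
  have hM0' : 0 ≤ M0 := by rw [← hM0]; positivity
  refine ⟨6 * M0 + 2, (n : ℝ)⁻¹, by positivity, by positivity, ?_⟩
  intro a c s A B hc hcb hconv hgr hs1 hsd hlc hB h1 h2 hAs hlow hlay l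
  obtain ⟨y, hy⟩ : ∃ y : ℝ, ((l : ℝ) + 2) ^ ((n : ℝ)⁻¹) = y := ⟨_, rfl⟩
  rw [hy]
  have hl00 : (0 : ℝ) ≤ l := Nat.cast_nonneg l
  have hyn : y ^ n = (l : ℝ) + 2 := by
    rw [← hy]
    exact Real.rpow_inv_natCast_pow (by positivity) hn
  have hy1 : 1 ≤ y := by
    rw [← hy]
    exact Real.one_le_rpow (by linarith) (by positivity)
  have hy0 : 0 < y := by linarith
  have hac : (c l : ℝ) ≤ a l := by
    have h := hlay l 0 (fun k hk => absurd hk (by omega))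
    rw [range_zero, sum_empty, sum_empty, add_zero, add_zero] at h
    exact_mod_cast h
  have hyl : y ≤ l + 2 := by
    rw [← hyn]
    exact le_self_pow₀ hy1 hn
  have hcp : (0 : ℝ) < c l := by exact_mod_cast hc l
  have hap : (0 : ℝ) < a l := lt_of_lt_of_le hcp hac
  have hMa : 0 ≤ 6 * M0 * a l := by positivity
  by_cases hy4 : y < 6 * M0
  · calc (c l : ℝ) * y ≤ a l * (6 * M0) := mul_le_mul hac hy4.le hy0.le hap.le
      _ ≤ (6 * M0 + 2) * a l := by linarith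
  by_cases hbig : (c l : ℝ) * (l + 2) ≤ a l
  · calc (c l : ℝ) * y ≤ c l * (l + 2) := mul_le_mul_of_nonneg_left hyl hcp.le
      _ ≤ a l := hbig
      _ ≤ (6 * M0 + 2) * a l := by linarith
  rcases Nat.eq_zero_or_pos l with hl0 | hl
  · subst hl0
    rw [Nat.cast_zero, zero_add] at hyl
    calc (c 0 : ℝ) * y ≤ a 0 * 2 := mul_le_mul hac hyl hy0.le hap.le
      _ ≤ (6 * M0 + 2) * a 0 := by linarith
  have hy4 := le_of_not_gt hy4
  have hbig := lt_of_not_ge hbig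
  have hl1 : (1 : ℝ) ≤ l := by exact_mod_cast hl
  have hb1 : (1 : ℝ) ≤ b := by exact_mod_cast hb
  -- the ratios of `c`
  have hgr' : (b : ℝ) ^ (2 * l) * c 0 ≤ c l * ((l : ℝ) + 2) ^ D := by
    have e1 : (b : ℝ) ^ (2 * l) ≤ a l * ((l : ℝ) + 2) ^ D0 := by exact_mod_cast hgr l
    have e3 : (c 0 : ℝ) ≤ ((l : ℝ) + 2) ^ (b ^ 2) := by
      have h3 : c 0 ≤ 2 ^ (b ^ 2) := (hcb 0).trans (by
        rw [zero_add, mul_one]
        exact Nat.lt_two_pow_self.le)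
      have h4 : ((c 0 : ℕ) : ℝ) ≤ (2 : ℝ) ^ (b ^ 2) := by exact_mod_cast h3
      exact h4.trans (pow_le_pow_left₀ (by norm_num) (by linarith) _)
    calc (b : ℝ) ^ (2 * l) * c 0 ≤ (a l * ((l : ℝ) + 2) ^ D0) * ((l : ℝ) + 2) ^ (b ^ 2) :=
          mul_le_mul e1 e3 (Nat.cast_nonneg _) (by positivity)
      _ ≤ ((c l * (l + 2)) * ((l : ℝ) + 2) ^ D0) * ((l : ℝ) + 2) ^ (b ^ 2) := by
          gcongr
      _ = c l * ((l : ℝ) + 2) ^ D := by
          rw [← hDdef, pow_add, pow_succ]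
          ring
  obtain ⟨q, hq⟩ : ∃ q : ℝ, D * Real.log (l + 2) / l = q := ⟨_, rfl⟩
  have hlog0 : 0 ≤ Real.log ((l : ℝ) + 2) := Real.log_nonneg (by linarith)
  have hq0 : 0 ≤ q := by rw [← hq]; positivity
  obtain ⟨M, hM⟩ : ∃ M : ℝ, (b : ℝ) ^ (4 * r) * (2 * r) * q * c l = M := ⟨_, rfl⟩
  have hM' : 0 ≤ M := by rw [← hM]; positivity
  have hs1' : ∀ k, (1 : ℝ) ≤ s k := fun k => by exact_mod_cast hs1 k
  -- the first two defects
  have hE : ∀ k, 1 ≤ k → k ≤ 2 → (s k : ℝ) * c l - A l k ≤ M * s k := by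
    intro k hk hk2
    have h3 := Pool.Agent.Helper47.PR.ratio_at hb hc hconv hl hgr' (r * k)
    rw [hq] at h3
    have h4 : (s k : ℝ) * c l + c (l + r * k) ≤ A l k + (b : ℝ) ^ (2 * r * k) * c l := by
      exact_mod_cast hlow l k hk
    have e3 : 2 * (r * k) = 2 * r * k := by ring
    rw [e3] at h3
    have h5 : (b : ℝ) ^ (2 * r * k) ≤ (b : ℝ) ^ (4 * r) :=
      pow_le_pow_right₀ hb1 (by nlinarith)
    have h6 : ((r * k : ℕ) : ℝ) ≤ 2 * r := by
      have : r * k ≤ 2 * r := by nlinarith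
      exact_mod_cast this
    have h7 : (b : ℝ) ^ (2 * r * k) * ((r * k : ℕ) : ℝ) ≤ (b : ℝ) ^ (4 * r) * (2 * r) :=
      mul_le_mul h5 h6 (Nat.cast_nonneg _) (by positivity)
    have h8 : (b : ℝ) ^ (2 * r * k) * ((r * k : ℕ) : ℝ) * (q * c l) ≤
        (b : ℝ) ^ (4 * r) * (2 * r) * (q * c l) :=
      mul_le_mul_of_nonneg_right h7 (by positivity)
    have h9 : M ≤ M * s k := le_mul_of_one_le_right hM' (hs1' k)
    rw [← hM] at h9 ⊢
    nlinarith [h3, h4, h8, h9]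
  -- all defects
  have hdef := doubling (S := fun k => (s k : ℝ)) (δ := fun k => (s k : ℝ) * c l - A l k)
    (β := fun i j => (s i : ℝ) * s j * c l - B l i j) hs1'
    (fun k hk => by
      have := mono_succ hs1 hlc hk
      exact_mod_cast this)
    (fun i j hj hij => by exact_mod_cast hB l i j hj hij)
    (fun i j hi hj => by exact_mod_cast h1 l i j hi hj)
    (fun i j hi hj => by exact_mod_cast h2 l i j hi hj) hM' hE
  -- the number of layers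
  obtain ⟨F, hF⟩ : ∃ F : ℕ, ⌊y⌋₊ = F := ⟨_, rfl⟩
  have hF1 : F ≠ 0 := by
    rw [← hF]
    exact (Nat.floor_pos.2 hy1).ne'
  obtain ⟨i, hi⟩ : ∃ i : ℕ, Nat.log 2 F = i := ⟨_, rfl⟩
  have hiF : 2 ^ i ≤ F := by
    rw [← hi]
    exact Nat.pow_log_le_self 2 hF1
  have hFi : F < 2 ^ (i + 1) := by
    rw [← hi]
    exact Nat.lt_pow_succ_log_self (by norm_num) F
  have hYy : (2 : ℝ) ^ i ≤ y := by
    have h3 : ((2 ^ i : ℕ) : ℝ) ≤ F := by exact_mod_cast hiF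
    have h4 : (F : ℝ) ≤ y := by rw [← hF]; exact Nat.floor_le hy0.le
    push_cast at h3
    linarith
  have hyK : y ≤ (2 : ℝ) ^ (i + 1) := by
    have h3 : y < F + 1 := by rw [← hF]; exact Nat.lt_floor_add_one y
    have h4 : ((F + 1 : ℕ) : ℝ) ≤ ((2 ^ (i + 1) : ℕ) : ℝ) := by exact_mod_cast hFi
    push_cast at h4
    linarith
  have hY1 : (1 : ℝ) ≤ (2 : ℝ) ^ i := one_le_pow₀ (by norm_num)
  have hsm : ∀ k, 1 ≤ k → k ≤ 2 ^ (i + 1) → (s k : ℝ) ≤ (4 * (2 : ℝ) ^ i) ^ d := by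
    intro k hk hk2
    have h3 : (s k : ℝ) ≤ ((k : ℝ) + 1) ^ d := by exact_mod_cast hsd k
    refine h3.trans (pow_le_pow_left₀ (by positivity) ?_ d)
    have h4 : (k : ℝ) ≤ 2 ^ (i + 1) := by exact_mod_cast hk2
    rw [pow_succ] at h4
    linarith
  have hbound : ∀ k, 1 ≤ k → k ≤ 2 ^ (i + 1) → (s k : ℝ) * c l - A l k ≤
      (4 : ℝ) ^ (5 * d) * y ^ (5 * d + 9) * M := by
    intro k hk hk2
    have h3 : (s k : ℝ) * c l - A l k ≤ 400 ^ i * ((s (2 ^ (i + 1)) : ℝ) * s (2 ^ i)) ^ 2 * M *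
        s k := hdef i k hk hk2
    refine h3.trans ?_
    have hp1 : 1 ≤ 2 ^ i := Nat.one_le_two_pow
    have e1 : 2 ^ (i + 1) = 2 * 2 ^ i := by rw [pow_succ, mul_comm]
    have h4 := hsm (2 ^ (i + 1)) (by omega) le_rfl
    have h5 := hsm (2 ^ i) hp1 (by omega)
    have h6 := hsm k hk hk2
    have h7 : (400 : ℝ) ^ i ≤ ((2 : ℝ) ^ i) ^ 9 := by
      rw [← pow_mul, mul_comm i 9, pow_mul]
      exact pow_le_pow_left₀ (by norm_num) (by norm_num) i
    have hs0 : ∀ k, (0 : ℝ) ≤ s k := fun k => Nat.cast_nonneg _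
    calc 400 ^ i * ((s (2 ^ (i + 1)) : ℝ) * s (2 ^ i)) ^ 2 * M * s k
        ≤ ((2 : ℝ) ^ i) ^ 9 * ((4 * (2 : ℝ) ^ i) ^ d * (4 * (2 : ℝ) ^ i) ^ d) ^ 2 * M *
          (4 * (2 : ℝ) ^ i) ^ d := by
          have := hs0 (2 ^ (i + 1))
          have := hs0 (2 ^ i)
          have := hs0 k
          gcongr
      _ = (4 : ℝ) ^ (5 * d) * ((2 : ℝ) ^ i) ^ (5 * d + 9) * M := by
          have e5 : ((4 * (2 : ℝ) ^ i) ^ d * (4 * (2 : ℝ) ^ i) ^ d) ^ 2 * M *
              (4 * (2 : ℝ) ^ i) ^ d = (4 * (2 : ℝ) ^ i) ^ (5 * d) * M := by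
            rw [show 5 * d = d + d + (d + d) + d by ring, pow_add _ (d + d + (d + d)) d,
              pow_add _ (d + d) (d + d), pow_add _ d d]
            ring
          rw [mul_assoc, mul_assoc, ← mul_assoc _ M, e5, mul_pow, pow_add]
          ring
      _ ≤ (4 : ℝ) ^ (5 * d) * y ^ (5 * d + 9) * M := by
          gcongr
  have hsmall : (4 : ℝ) ^ (5 * d) * y ^ (5 * d + 9) * M ≤ c l / 2 := by
    have hql : q * l = D * Real.log (l + 2) := by
      rw [← hq, div_mul_cancel₀ _ (by positivity)]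
    have hlogy : Real.log ((l : ℝ) + 2) ≤ n * y := by
      rw [← hyn, Real.log_pow]
      exact mul_le_mul_of_nonneg_left ((Real.log_le_sub_one_of_pos hy0).trans (by linarith))
        hn0.le
    have h3 : (4 : ℝ) ^ (5 * d) * y ^ (5 * d + 9) * M * l ≤ M0 * y ^ (5 * d + 10) * c l := by
      calc (4 : ℝ) ^ (5 * d) * y ^ (5 * d + 9) * M * l
          = (4 : ℝ) ^ (5 * d) * y ^ (5 * d + 9) * ((b : ℝ) ^ (4 * r) * (2 * r)) * (q * l) * c l := by
            rw [← hM]; ring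
        _ = (4 : ℝ) ^ (5 * d) * y ^ (5 * d + 9) * ((b : ℝ) ^ (4 * r) * (2 * r)) *
            (D * Real.log (l + 2)) * c l := by rw [hql]
        _ ≤ (4 : ℝ) ^ (5 * d) * y ^ (5 * d + 9) * ((b : ℝ) ^ (4 * r) * (2 * r)) *
            (D * (n * y)) * c l := by gcongr
        _ = M0 * y ^ (5 * d + 10) * c l := by
            rw [← hM0, show 5 * d + 10 = 5 * d + 9 + 1 by ring, pow_succ y]
            ring
    have h4 : M0 * y ^ (5 * d + 10) * 6 ≤ y ^ n := by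
      have h5 : y ^ n = y * y ^ (5 * d + 10) := by
        rw [← hndef, show 5 * d + 11 = 5 * d + 10 + 1 by ring, pow_succ]
        ring
      rw [h5]
      have h6 : 0 ≤ y ^ (5 * d + 10) := by positivity
      nlinarith
    have h5 : y ^ n ≤ 3 * l := by rw [hyn]; linarith
    have h6 : M0 * y ^ (5 * d + 10) * c l ≤ c l / 2 * l := by
      have h7 : M0 * y ^ (5 * d + 10) ≤ l / 2 := by linarith
      calc M0 * y ^ (5 * d + 10) * c l ≤ l / 2 * c l := mul_le_mul_of_nonneg_right h7 hcp.le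
        _ = c l / 2 * l := by ring
    exact le_of_mul_le_mul_right (h3.trans h6) (by linarith)
  -- the layers
  have hk0 : ∀ k < 2 ^ (i + 1), (s (k + 1) : ℝ) * c l - A l (k + 1) ≤ c l / 2 := fun k hk =>
    (hbound (k + 1) (by omega) (by omega)).trans hsmall
  have h := hlay l (2 ^ (i + 1)) (fun k hk => by
    have h3 := hk0 k hk
    have h4 : (s (k + 1) : ℝ) * c l < A l (k + 1) + c l := by linarith
    exact_mod_cast h4)
  have hlay' : (c l : ℝ) + ∑ k ∈ range (2 ^ (i + 1)), (A l (k + 1) : ℝ) ≤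
      a l + ∑ k ∈ range (2 ^ (i + 1)), ((s (k + 1) : ℝ) - 1) * c l := by
    have h2 : ((c l + ∑ k ∈ range (2 ^ (i + 1)), A l (k + 1) : ℕ) : ℝ) ≤
        ((a l + ∑ k ∈ range (2 ^ (i + 1)), (s (k + 1) - 1) * c l : ℕ) : ℝ) := by exact_mod_cast h
    rw [Nat.cast_add, Nat.cast_add, Nat.cast_sum, Nat.cast_sum] at h2
    refine h2.trans (le_of_eq ?_)
    congr 1
    refine sum_congr rfl fun k _ => ?_
    rw [Nat.cast_mul, Nat.cast_sub (hs1 _), Nat.cast_one]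
  have hgain : ∀ k ∈ range (2 ^ (i + 1)),
      ((s (k + 1) : ℝ) - 1) * c l + c l / 2 ≤ A l (k + 1) := by
    intro k hk
    rw [mem_range] at hk
    have h3 := hk0 k hk
    linarith
  have hsum := sum_le_sum hgain
  rw [sum_add_distrib, sum_const, card_range, nsmul_eq_mul] at hsum
  push_cast at hsum
  have hfin : (c l : ℝ) + (2 : ℝ) ^ (i + 1) * (c l / 2) ≤ a l := by linarith
  have hcy : (c l : ℝ) * y ≤ c l * (2 : ℝ) ^ (i + 1) := mul_le_mul_of_nonneg_left hyK hcp.le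
  linarith

end Pool.Agent.Helper34.P2
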